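import Pool.Agent.helper88.GR.Spec

set_option autoImplicit false

open Complex Metric Set Filter Topology MeasureTheory
open MPS (om)
open PPS (pre TT fd)
open XPS (Df er dens tau)

noncomputable section

namespace GR

/-- three quantities, no near tie: the largest dominates. -/
theorem SEL_dom (Λ x y z : ℝ) (hΛ : 2 ≤ Λ) (h1 : Λ * y ≤ x ∨ Λ * x ≤ y)
    (h2 : Λ * z ≤ x ∨ Λ * x ≤ z) (h3 : Λ * z ≤ y ∨ Λ * y ≤ z) (hx : 0 ≤ x) (hy : 0 ≤ y)
    (hz : 0 ≤ z) :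
    (Λ * y ≤ x ∧ Λ * z ≤ x) ∨ (Λ * x ≤ y ∧ Λ * z ≤ y) ∨ (Λ * x ≤ z ∧ Λ * y ≤ z) := by
  rcases h1 with h1 | h1 <;> rcases h2 with h2 | h2 <;> rcases h3 with h3 | h3
  · exact Or.inl ⟨h1, h2⟩
  · exact Or.inl ⟨h1, h2⟩
  · refine Or.inl ⟨h1, ?_⟩
    nlinarith
  · exact Or.inr (Or.inr ⟨h2, h3⟩)
  · exact Or.inr (Or.inl ⟨h1, h3⟩)
  · exact Or.inl ⟨by nlinarith, h2⟩
  · exact Or.inr (Or.inl ⟨h1, h3⟩)
  · exact Or.inr (Or.inr ⟨h2, h3⟩)

/-- a property with two members never at distance two or more holds for at most two numbers. -/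
theorem SEL_card2 (P : ℕ → Prop) [DecidablePred P] (h : ∀ k k', P k → P k' → k' < k + 2) :
    ((Finset.Icc 1 6).filter P).card ≤ 2 := by
  rcases Finset.eq_empty_or_nonempty ((Finset.Icc 1 6).filter P) with he | hne
  · rw [he]
    simp
  · set m := ((Finset.Icc 1 6).filter P).min' hne with hm
    have hmP : P m := (Finset.mem_filter.mp (Finset.min'_mem _ hne)).2
    have hsub : (Finset.Icc 1 6).filter P ⊆ {m, m + 1} := by
      intro k hk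
      have h1 : m ≤ k := Finset.min'_le _ k hk
      have h2 : k < m + 2 := h m k hmP (Finset.mem_filter.mp hk).2
      simp only [Finset.mem_insert, Finset.mem_singleton]
      omega
    exact le_trans (Finset.card_le_card hsub) Finset.card_le_two

/-- a property with at most one member. -/
theorem SEL_card1 (P : ℕ → Prop) [DecidablePred P] (h : ∀ k k', P k → P k' → k' < k + 1) :
    ((Finset.Icc 1 6).filter P).card ≤ 1 := by
  rw [Finset.card_le_one]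
  intro a ha b hb
  have h1 := h a b (Finset.mem_filter.mp ha).2 (Finset.mem_filter.mp hb).2
  have h2 := h b a (Finset.mem_filter.mp hb).2 (Finset.mem_filter.mp ha).2
  omega

theorem SEL : SEL_stmt := by
  intro Λ α β hΛ hα hβ
  have hΛ0 : 0 < Λ := by linarith
  have hΛ1 : 1 ≤ Λ := by linarith
  classical
  have hb1 : ((Finset.Icc 1 6).filter
      (fun k : ℕ => Λ ^ k < Λ * α ∧ α < Λ * Λ ^ k)).card ≤ 2 := by
    apply SEL_card2
    intro k k' h h'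
    by_contra hlt
    rw [not_lt] at hlt
    have h1 : Λ ^ (k + 2) ≤ Λ ^ k' := pow_le_pow_right₀ hΛ1 hlt
    have h2 : Λ * α < Λ * (Λ * Λ ^ k) := mul_lt_mul_of_pos_left h.2 hΛ0
    have h3 : Λ * (Λ * Λ ^ k) = Λ ^ (k + 2) := by ring
    linarith [h'.1]
  have hb2 : ((Finset.Icc 1 6).filter
      (fun k : ℕ => Λ ^ k < Λ * (β / Λ ^ k) ∧ β / Λ ^ k < Λ * Λ ^ k)).card ≤ 1 := by
    apply SEL_card1
    intro k k' h h'
    by_contra hlt
    rw [not_lt] at hlt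
    have hk : 0 < Λ ^ k := pow_pos hΛ0 k
    have hk' : 0 < Λ ^ k' := pow_pos hΛ0 k'
    have h1 : Λ ^ (k + 1) ≤ Λ ^ k' := pow_le_pow_right₀ hΛ1 hlt
    have h2 : β < Λ * Λ ^ k * Λ ^ k := (div_lt_iff₀ hk).mp h.2
    have h3 : Λ ^ k' * Λ ^ k' < Λ * β := by
      have := h'.1
      rw [← mul_div_assoc, lt_div_iff₀ hk'] at this
      exact this
    have h4 : Λ ^ (k + 1) * Λ ^ (k + 1) ≤ Λ ^ k' * Λ ^ k' := by gcongr
    have h5 : Λ * β < Λ * (Λ * Λ ^ k * Λ ^ k) := mul_lt_mul_of_pos_left h2 hΛ0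
    have h6 : Λ * (Λ * Λ ^ k * Λ ^ k) = Λ ^ (k + 1) * Λ ^ (k + 1) := by ring
    linarith
  have hb3 : ((Finset.Icc 1 6).filter
      (fun k : ℕ => β / Λ ^ k < Λ * α ∧ α < Λ * (β / Λ ^ k))).card ≤ 2 := by
    apply SEL_card2
    intro k k' h h'
    by_contra hlt
    rw [not_lt] at hlt
    have hk : 0 < Λ ^ k := pow_pos hΛ0 k
    have hk' : 0 < Λ ^ k' := pow_pos hΛ0 k'
    have h1 : Λ ^ (k + 2) ≤ Λ ^ k' := pow_le_pow_right₀ hΛ1 hlt
    have h2 : β < Λ * α * Λ ^ k := (div_lt_iff₀ hk).mp h.1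
    have h3 : α * Λ ^ k' < Λ * β := by
      have := h'.2
      rw [← mul_div_assoc, lt_div_iff₀ hk'] at this
      exact this
    have h4 : α * Λ ^ (k + 2) ≤ α * Λ ^ k' := by gcongr
    have h5 : Λ * β < Λ * (Λ * α * Λ ^ k) := mul_lt_mul_of_pos_left h2 hΛ0
    have h6 : Λ * (Λ * α * Λ ^ k) = α * Λ ^ (k + 2) := by ring
    linarith
  have hex : ∃ k ∈ Finset.Icc 1 6, ¬ (Λ ^ k < Λ * α ∧ α < Λ * Λ ^ k) ∧
      ¬ (Λ ^ k < Λ * (β / Λ ^ k) ∧ β / Λ ^ k < Λ * Λ ^ k) ∧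
      ¬ (β / Λ ^ k < Λ * α ∧ α < Λ * (β / Λ ^ k)) := by
    by_contra hno
    push Not at hno
    have hcov : (Finset.Icc 1 6 : Finset ℕ) ⊆ ((Finset.Icc 1 6).filter
      (fun k : ℕ => Λ ^ k < Λ * α ∧ α < Λ * Λ ^ k)) ∪ (((Finset.Icc 1 6).filter
      (fun k : ℕ => Λ ^ k < Λ * (β / Λ ^ k) ∧ β / Λ ^ k < Λ * Λ ^ k)) ∪ ((Finset.Icc 1 6).filter
      (fun k : ℕ => β / Λ ^ k < Λ * α ∧ α < Λ * (β / Λ ^ k)))) := by
      intro k hk
      have := hno k hk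
      rw [Finset.mem_union, Finset.mem_union, Finset.mem_filter, Finset.mem_filter,
        Finset.mem_filter]
      by_cases c1 : Λ ^ k < Λ * α ∧ α < Λ * Λ ^ k
      · exact Or.inl ⟨hk, c1⟩
      by_cases c2 : Λ ^ k < Λ * (β / Λ ^ k) ∧ β / Λ ^ k < Λ * Λ ^ k
      · exact Or.inr (Or.inl ⟨hk, c2⟩)
      refine Or.inr (Or.inr ⟨hk, ?_⟩)
      apply this
      · intro h
        by_contra h'
        exact c1 ⟨h, not_le.mp h'⟩
      · intro h
        by_contra h'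
        exact c2 ⟨h, not_le.mp h'⟩
    have h1 := Finset.card_le_card hcov
    have h2 := Finset.card_union_le ((Finset.Icc 1 6).filter
      (fun k : ℕ => Λ ^ k < Λ * α ∧ α < Λ * Λ ^ k)) (((Finset.Icc 1 6).filter
      (fun k : ℕ => Λ ^ k < Λ * (β / Λ ^ k) ∧ β / Λ ^ k < Λ * Λ ^ k)) ∪ ((Finset.Icc 1 6).filter
      (fun k : ℕ => β / Λ ^ k < Λ * α ∧ α < Λ * (β / Λ ^ k))))
    have h3 := Finset.card_union_le ((Finset.Icc 1 6).filter
      (fun k : ℕ => Λ ^ k < Λ * (β / Λ ^ k) ∧ β / Λ ^ k < Λ * Λ ^ k)) ((Finset.Icc 1 6).filter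
      (fun k : ℕ => β / Λ ^ k < Λ * α ∧ α < Λ * (β / Λ ^ k)))
    have h4 : (Finset.Icc 1 6 : Finset ℕ).card = 6 := by simp
    omega
  obtain ⟨k, hk, g1, g2, g3⟩ := hex
  refine ⟨k, hk, ?_⟩
  have hkp : 0 < Λ ^ k := pow_pos hΛ0 k
  apply SEL_dom Λ (Λ ^ k) α (β / Λ ^ k) hΛ
  · by_contra hc
    push Not at hc
    exact g1 ⟨hc.1, hc.2⟩
  · by_contra hc
    push Not at hc
    exact g2 ⟨hc.1, hc.2⟩
  · by_contra hc
    push Not at hc
    exact g3 ⟨hc.2, hc.1⟩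
  · exact hkp.le
  · exact hα
  · exact div_nonneg hβ hkp.le

end GR
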