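import Pool.Agent.helper88.GR.Spec

set_option autoImplicit false

open Complex Metric Set Filter Topology MeasureTheory
open MPS (om)
open PPS (pre TT fd)
open XPS (Df er dens tau)

noncomputable section

namespace GR

theorem SYM_om (n k : ℕ) : ‖om n ^ k‖ = 1 := by
  have h : ‖om n‖ = 1 := by
    unfold MPS.om
    have e : (2 * (Real.pi : ℂ) * Complex.I / n) = ((2 * Real.pi / n : ℝ) : ℂ) * Complex.I := by
      push_cast
      ring
    rw [e, Complex.norm_exp_ofReal_mul_I]
  rw [norm_pow, h, one_pow]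

/-- the rotation by a unimodular number preserves Lebesgue measure on the balls around `0`. -/
theorem SYM_mp (a : ℂ) (ha : ‖a‖ = 1) (r : ℝ) :
    MeasurePreserving (fun w : ℂ => a * w) (volume.restrict (ball (0 : ℂ) r))
      (volume.restrict (ball (0 : ℂ) r)) ∧ MeasurableEmbedding (fun w : ℂ => a * w) := by
  set A : Circle := ⟨a, mem_sphere_zero_iff_norm.2 ha⟩ with hA
  have e : (fun w : ℂ => a * w) = rotation A := by
    funext w
    rw [rotation_apply]
  have hmp : MeasurePreserving (fun w : ℂ => a * w) volume volume := by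
    rw [e]
    exact (rotation A).measurePreserving
  have hpre : (fun w : ℂ => a * w) ⁻¹' (ball (0 : ℂ) r) = ball (0 : ℂ) r := by
    ext w
    simp [ha]
  constructor
  · have := hmp.restrict_preimage (s := ball (0 : ℂ) r) measurableSet_ball
    rwa [hpre] at this
  · rw [e]
    exact (rotation A).toHomeomorph.measurableEmbedding

/-- the pointwise inequality. -/
theorem SYM_pt (n : ℕ) (h b : ℂ → ℂ) (w : ℂ) :
    ENNReal.ofReal (∑ k ∈ Finset.range n, ‖h (om n ^ k * w)‖ -
      ‖∑ k ∈ Finset.range n, om n ^ (2 * k) * h (om n ^ k * w)‖) ≤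
    ∑ k ∈ Finset.range n, ENNReal.ofReal (‖h (om n ^ k * w)‖ + ‖b (om n ^ k * w) -
      h (om n ^ k * w)‖ - ‖b (om n ^ k * w)‖) +
    ENNReal.ofReal (∑ k ∈ Finset.range n, ‖b (om n ^ k * w)‖ -
      ‖∑ k ∈ Finset.range n, om n ^ (2 * k) * b (om n ^ k * w)‖) := by
  have h1 : ‖∑ k ∈ Finset.range n, om n ^ (2 * k) * b (om n ^ k * w)‖ ≤
      ‖∑ k ∈ Finset.range n, om n ^ (2 * k) * h (om n ^ k * w)‖ +
      ∑ k ∈ Finset.range n, ‖b (om n ^ k * w) - h (om n ^ k * w)‖ := by
    have e : ∑ k ∈ Finset.range n, om n ^ (2 * k) * b (om n ^ k * w) =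
        ∑ k ∈ Finset.range n, om n ^ (2 * k) * h (om n ^ k * w) +
        ∑ k ∈ Finset.range n, om n ^ (2 * k) * (b (om n ^ k * w) - h (om n ^ k * w)) := by
      rw [← Finset.sum_add_distrib]
      apply Finset.sum_congr rfl
      intro k _
      ring
    rw [e]
    refine le_trans (norm_add_le _ _) ?_
    gcongr
    refine le_trans (norm_sum_le _ _) ?_
    apply Finset.sum_le_sum
    intro k _
    rw [norm_mul, SYM_om, one_mul]
  calc ENNReal.ofReal (∑ k ∈ Finset.range n, ‖h (om n ^ k * w)‖ -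
      ‖∑ k ∈ Finset.range n, om n ^ (2 * k) * h (om n ^ k * w)‖)
      ≤ ENNReal.ofReal (∑ k ∈ Finset.range n, (‖h (om n ^ k * w)‖ + ‖b (om n ^ k * w) -
      h (om n ^ k * w)‖ - ‖b (om n ^ k * w)‖) + (∑ k ∈ Finset.range n, ‖b (om n ^ k * w)‖ -
      ‖∑ k ∈ Finset.range n, om n ^ (2 * k) * b (om n ^ k * w)‖)) := by
        apply ENNReal.ofReal_le_ofReal
        rw [Finset.sum_sub_distrib, Finset.sum_add_distrib]
        linarith
    _ ≤ ENNReal.ofReal (∑ k ∈ Finset.range n, (‖h (om n ^ k * w)‖ + ‖b (om n ^ k * w) -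
      h (om n ^ k * w)‖ - ‖b (om n ^ k * w)‖)) + ENNReal.ofReal (∑ k ∈ Finset.range n,
      ‖b (om n ^ k * w)‖ - ‖∑ k ∈ Finset.range n, om n ^ (2 * k) * b (om n ^ k * w)‖) :=
        ENNReal.ofReal_add_le
    _ = _ := by
        rw [ENNReal.ofReal_sum_of_nonneg]
        intro k _
        have := norm_sub_norm_le (b (om n ^ k * w)) (b (om n ^ k * w) - h (om n ^ k * w))
        have e : b (om n ^ k * w) - (b (om n ^ k * w) - h (om n ^ k * w)) = h (om n ^ k * w) := by
          ring
        rw [e] at this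
        linarith

theorem SYM (hCHN : CHN_stmt) (hCRT : CRT_stmt) : SYM_stmt := by
  intro C n c p q G E hC hR hT hX hDf her hE m₀ hm₀
  have hC1 : 1 ≤ C := hC.1
  have hRpos : 0 < R n c q := by
    unfold R
    exact norm_pos_iff.mpr (hR.ne0 q hR.q1 hR.qp.le)
  have hR2 : R n c q ≤ 2 := hR.le2 q hR.q1 hR.qp.le
  set r : ℝ := R n c q / (8 * C) with hr
  have hr0 : 0 < r := by positivity
  have hr1 : r ≤ 1 := by
    rw [hr, div_le_one (by positivity)]
    linarith
  have hrR : r ≤ R n c q := by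
    rw [hr, div_le_iff₀ (by positivity)]
    nlinarith
  set b : ℂ → ℂ := B n c p q with hb
  have hbm : Measurable b := by
    have : b = fun w => ∑ j ∈ Finset.Icc 1 p, xc n c p q j / A n c j / (w - Z n c j) := by
      funext w
      rfl
    rw [this]
    fun_prop
  have htau0 : ∀ w, tau b G 0 w = b w := by
    intro w
    have e : G 0 = id := by
      funext z
      exact hT.zero z
    simp [XPS.tau, e]
  set h : ℂ → ℂ := tau b G m₀ with hh
  have hhm : AEMeasurable h (volume.restrict (ball (0 : ℂ) r)) := by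
    have h1 : ContinuousOn (G m₀) (ball (0 : ℂ) r) :=
      ((hT.diff m₀ hm₀).mono (ball_subset_ball hrR)).continuousOn
    have h2 : AEMeasurable (G m₀) (volume.restrict (ball (0 : ℂ) r)) :=
      h1.aemeasurable measurableSet_ball
    have h3 : AEMeasurable (fun w => b (G m₀ w)) (volume.restrict (ball (0 : ℂ) r)) :=
      hbm.comp_aemeasurable h2
    have h4 : Measurable (deriv (G m₀)) := measurable_deriv _
    exact (h4.pow_const 2).aemeasurable.mul h3
  set u : ℂ → ENNReal := fun w => ENNReal.ofReal (‖h w‖ + ‖b w - h w‖ - ‖b w‖) with hu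
  have hum : AEMeasurable u (volume.restrict (ball (0 : ℂ) r)) := by
    apply AEMeasurable.ennreal_ofReal
    exact (hhm.norm.add (hbm.aemeasurable.sub hhm).norm).sub hbm.aemeasurable.norm
  have hchn : ∫⁻ w in ball (0 : ℂ) r, u w ≤ ENNReal.ofReal E := by
    have := hCHN C n c p q G E hC hR hT hX hDf her hE m₀ hm₀
    simp only [← hb, htau0, ← hh] at this
    exact this
  have hcrt := hCRT n c b E r hR.hn hR.hc hbm hr0 hr1 hDf hE
  have hrot : ∀ k : ℕ, AEMeasurable (fun w => u (om n ^ k * w)) (volume.restrict (ball (0 : ℂ) r)) ∧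
      ∫⁻ w in ball (0 : ℂ) r, u (om n ^ k * w) ≤ ENNReal.ofReal E := by
    intro k
    obtain ⟨h1, h2⟩ := SYM_mp (om n ^ k) (SYM_om n k) r
    constructor
    · exact hum.comp_quasiMeasurePreserving h1.quasiMeasurePreserving
    · have := h1.lintegral_comp_emb h2 u
      rw [this]
      exact hchn
  calc ∫⁻ w in ball (0 : ℂ) r, ENNReal.ofReal (∑ k ∈ Finset.range n, ‖h (om n ^ k * w)‖ -
      ‖∑ k ∈ Finset.range n, om n ^ (2 * k) * h (om n ^ k * w)‖)
      ≤ ∫⁻ w in ball (0 : ℂ) r, (∑ k ∈ Finset.range n, u (om n ^ k * w) +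
        ENNReal.ofReal (∑ k ∈ Finset.range n, ‖b (om n ^ k * w)‖ -
      ‖∑ k ∈ Finset.range n, om n ^ (2 * k) * b (om n ^ k * w)‖)) := by
        apply lintegral_mono
        intro w
        exact SYM_pt n h b w
    _ = (∫⁻ w in ball (0 : ℂ) r, ∑ k ∈ Finset.range n, u (om n ^ k * w)) +
        ∫⁻ w in ball (0 : ℂ) r, ENNReal.ofReal (∑ k ∈ Finset.range n, ‖b (om n ^ k * w)‖ -
      ‖∑ k ∈ Finset.range n, om n ^ (2 * k) * b (om n ^ k * w)‖) := by
        apply lintegral_add_left'
        exact Finset.aemeasurable_fun_sum _ (fun k _ => (hrot k).1)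
    _ ≤ n * ENNReal.ofReal E + n * ENNReal.ofReal E := by
        gcongr
        rw [lintegral_finsetSum' _ (fun k _ => (hrot k).1)]
        calc ∑ k ∈ Finset.range n, ∫⁻ w in ball (0 : ℂ) r, u (om n ^ k * w)
            ≤ ∑ k ∈ Finset.range n, ENNReal.ofReal E :=
              Finset.sum_le_sum (fun k _ => (hrot k).2)
          _ = n * ENNReal.ofReal E := by simp
    _ = 2 * n * ENNReal.ofReal E := by ring

end GR
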